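import Pool.Agent.Run7.h500.RD.All2
/-!
# MP_9de3af_an: injectivity of the Radon transform under polynomial growth, with weights that
depend on the direction only

`f : R^2 -> R` continuous, of polynomial growth, integrable over every line, with all line
integrals zero.  Suppose that for one `ρ < 1` and every unit vector `u = (cos θ, sin θ)`
either `|f(z)| exp(-|z.u|^ρ)` is integrable over the plane (no decay at all is asked along the
lines `z.u = p`, and nothing is uniform in `u`) or `|f(z)| / (1 + |z|)` is integrable over some cone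
`|z.u| <= δ |z|` around the direction of these lines.  Then `f = 0`.

So only two things are asked beyond (i)-(iii) of the problem: for each direction the line integrals
of `|f|` are locally integrable in `p`, and they grow at most like `exp(|p|^ρ)`, `ρ < 1`.
The second alternative at every `θ` is the known theorem (`f ∈ L^1((1+|z|)^(-1) dz)`).

Proof (helper500): the functions `V(w) = ∫_{y>0} f(x,y) K(w y - x + c)`, `Im w > 0`, and
`- ∫_{y<0}`, `Im w < 0`, with `K(Z) = Z^(-k) exp(-ε (-i Z)^ρ')`, have equal boundary values on the real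
line (the real points are the directions); Baire's theorem and a Phragmen-Lindelof argument in the
gaps of the exceptional set of directions show that they continue each other; Liouville; `ε → 0`.
Pieces by helpers 62, 67, 73, 220, 298, 300, 329, 417, 495, 576, 586, 592, 617, 646, 733, 781,
824, 896, 942, 961, 983, 989.
-/
set_option autoImplicit false
open MeasureTheory

namespace Pool.Agent.Results.MP_9de3af_an.SubexponentialDirections

theorem result (f : ℝ × ℝ → ℝ) (hf : Continuous f)
    (hgrowth : ∃ c : ℝ, ∃ m : ℕ, 0 < c ∧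
      ∀ x y : ℝ, |f (x, y)| ≤ c * (1 + (Real.sqrt (x ^ 2 + y ^ 2)) ^ m))
    (hint : ∀ θ p : ℝ, Integrable
      (fun t : ℝ => f (p * Real.cos θ - t * Real.sin θ, p * Real.sin θ + t * Real.cos θ)))
    (hzero : ∀ θ p : ℝ,
      ∫ t : ℝ, f (p * Real.cos θ - t * Real.sin θ, p * Real.sin θ + t * Real.cos θ) = 0)
    (hdir : ∃ ρ : ℝ, 0 < ρ ∧ ρ < 1 ∧ ∀ θ : ℝ,
      Integrable (fun z : ℝ × ℝ =>
        f z * Real.exp (-(|z.1 * Real.cos θ + z.2 * Real.sin θ| ^ ρ))) ∨
      ∃ δ : ℝ, 0 < δ ∧ IntegrableOn
        (fun z : ℝ × ℝ => f z / (1 + Real.sqrt (z.1 ^ 2 + z.2 ^ 2)))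
        {z | |z.1 * Real.cos θ + z.2 * Real.sin θ| ≤ δ * Real.sqrt (z.1 ^ 2 + z.2 ^ 2)}) :
    f = 0 :=
  Pool.Agent.Run7.h500.RD.main_all f hf hgrowth hint hzero hdir

end Pool.Agent.Results.MP_9de3af_an.SubexponentialDirections
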